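import Pool.Agent.H45.AD.Stm3
import Pool.Agent.H45.RQ.Avg2

set_option autoImplicit false

/-! AD-HR: the class number formula gives an upper bound of class number times regulator. -/

namespace Pool.Agent.H26.AD.HR

open NumberField Pool.Agent.H45.RQ Pool.Agent.H45.AD Pool.Agent.H38R2.CG Pool.Agent.Q276.PL
open Pool.Agent.Q149.PL (isFund_dsc dsc_le le_dsc dsc_or dsc_inj)

theorem t : StmtHR := by
  obtain ⟨C, hC, h⟩ := lone_le
  refine ⟨3 * C, by linarith, fun d h1 hs => ?_⟩
  have hrk := finrank_QS h1 hs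
  have hex := exists_sqrt d
  have hcnf := Pool.Agent.Q210.PL.cnf (QS d) d h1 hs hrk hex
  rw [← hnum_eq] at hcnf
  have hL : 0 ≤ Lone (dsc d) := Pool.Agent.Q79.PL.lnn _ (isFund_dsc h1 hs)
  have h4 := sqrt_dsc d
  have hD5 : (5 : ℝ) ≤ dsc d := by exact_mod_cast five_le_dsc h1
  have h3 := h (dsc d) (isFund_dsc h1 hs)
  have hd1 : (1 : ℝ) < d := by exact_mod_cast h1
  have hl0 : 0 ≤ Real.log d := Real.log_nonneg hd1.le
  have hl : Real.log (dsc d) ≤ 2 + Real.log d := by
    have h4 : Real.log (dsc d) ≤ Real.log (4 * d) := by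
      apply Real.log_le_log (by linarith)
      exact_mod_cast dsc_le d
    rw [Real.log_mul (by norm_num) (by linarith)] at h4
    have h5 : Real.log 4 ≤ 2 := by
      rw [show (4 : ℝ) = 2 ^ 2 by norm_num, Real.log_pow]
      have := Real.log_two_lt_d9
      push_cast
      linarith
    linarith
  have h6 : Lone (dsc d) ≤ C * (3 * (1 + Real.log d)) := by
    refine h3.trans (mul_le_mul_of_nonneg_left ?_ (by linarith))
    linarith
  have h7 : √(d : ℝ) * Lone (dsc d) ≤ √(d : ℝ) * (C * (3 * (1 + Real.log d))) :=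
    mul_le_mul_of_nonneg_left h6 (Real.sqrt_nonneg _)
  have h8 := mul_le_mul_of_nonneg_right h4 hL
  have h9 : 3 * C * √(d : ℝ) * (1 + Real.log d) = √(d : ℝ) * (C * (3 * (1 + Real.log d))) := by
    ring
  rw [h9]
  linarith

end Pool.Agent.H26.AD.HR
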