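import Pool.Agent.H45.AD.Stm4
import Pool.Agent.H14.AD.PK

/-! AD-PG: packing with bad pairs. -/

set_option autoImplicit false

namespace Pool.Agent.H26.AD.PG

open Finset

/-- Caro and Wei -/
theorem caro {ι : Type} [DecidableEq ι] (r : ι → ι → Prop) [DecidableRel r]
    (hs : ∀ i j, r i j → r j i) (hirr : ∀ i, ¬ r i i) : ∀ (n : ℕ) (F : Finset ι), F.card = n →
    ∃ T ⊆ F, (∀ i ∈ T, ∀ j ∈ T, ¬ r i j) ∧
      ∑ i ∈ F, (1 : ℝ) / (((F.filter (r i)).card : ℝ) + 1) ≤ T.card := by
  intro n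
  induction n using Nat.strong_induction_on with
  | _ n ih =>
    intro F hF
    rcases F.eq_empty_or_nonempty with hE | hE
    · subst hE
      exact ⟨∅, le_rfl, by simp, by simp⟩
    · obtain ⟨u, hu, hmin⟩ := Finset.exists_min_image F (fun i => (F.filter (r i)).card) hE
      obtain ⟨M, hM⟩ : ∃ M, M = insert u (F.filter (r u)) := ⟨_, rfl⟩
      have hMF : M ⊆ F := by
        rw [hM]
        exact Finset.insert_subset hu (Finset.filter_subset _ _)
      have huM : u ∈ M := by rw [hM]; exact Finset.mem_insert_self _ _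
      have hMc : M.card = (F.filter (r u)).card + 1 := by
        rw [hM, Finset.card_insert_of_notMem]
        intro h
        exact hirr u (Finset.mem_filter.1 h).2
      have hlt : (F \ M).card < n := by
        rw [← hF]
        exact Finset.card_lt_card ⟨Finset.sdiff_subset, fun h =>
          (Finset.mem_sdiff.1 (h hu)).2 huM⟩
      obtain ⟨T, hT1, hT2, hT3⟩ := ih _ hlt (F \ M) rfl
      have hnot : ∀ j ∈ T, ¬ r u j := by
        intro j hj h
        have h1 := Finset.mem_sdiff.1 (hT1 hj)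
        apply h1.2
        rw [hM]
        exact Finset.mem_insert_of_mem (Finset.mem_filter.2 ⟨h1.1, h⟩)
      have huT : u ∉ T := fun h => (Finset.mem_sdiff.1 (hT1 h)).2 huM
      refine ⟨insert u T, ?_, ?_, ?_⟩
      · exact Finset.insert_subset hu (hT1.trans Finset.sdiff_subset)
      · intro i hi j hj
        rw [Finset.mem_insert] at hi hj
        rcases hi with rfl | hi
        · rcases hj with rfl | hj
          · exact hirr _
          · exact hnot j hj
        · rcases hj with rfl | hj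
          · exact fun h => hnot i hi (hs _ _ h)
          · exact hT2 i hi j hj
      · rw [Finset.card_insert_of_notMem huT, ← Finset.sum_sdiff hMF]
        push_cast
        refine add_le_add ?_ ?_
        · refine le_trans (Finset.sum_le_sum fun i hi => ?_) hT3
          apply one_div_le_one_div_of_le (by positivity)
          have h1 : ((F \ M).filter (r i)).card ≤ (F.filter (r i)).card :=
            Finset.card_le_card (Finset.filter_subset_filter _ Finset.sdiff_subset)
          have h2 : (((F \ M).filter (r i)).card : ℝ) ≤ ((F.filter (r i)).card : ℝ) := by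
            exact_mod_cast h1
          linarith
        · have h1 : ∀ i ∈ M, (1 : ℝ) / (((F.filter (r i)).card : ℝ) + 1) ≤
              1 / (((F.filter (r u)).card : ℝ) + 1) := by
            intro i hi
            apply one_div_le_one_div_of_le (by positivity)
            have h2 := hmin i (hMF hi)
            have h3 : ((F.filter (r u)).card : ℝ) ≤ ((F.filter (r i)).card : ℝ) := by
              exact_mod_cast h2
            linarith
          refine (Finset.sum_le_card_nsmul _ _ _ h1).trans ?_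
          rw [nsmul_eq_mul, hMc]
          push_cast
          rw [mul_one_div, div_self (by positivity)]

/-- Turán -/
theorem turan {ι : Type} [DecidableEq ι] (r : ι → ι → Prop) [DecidableRel r]
    (hs : ∀ i j, r i j → r j i) (hirr : ∀ i, ¬ r i i) (F : Finset ι) (R : ℝ)
    (h : ∀ T ⊆ F, (∀ i ∈ T, ∀ j ∈ T, ¬ r i j) → (T.card : ℝ) ≤ R) :
    (F.card : ℝ) ^ 2 ≤ R * (F.card + (((F ×ˢ F).filter fun w => r w.1 w.2).card : ℝ)) := by
  obtain ⟨T, hT1, hT2, hT3⟩ := caro r hs hirr _ F rfl
  have h1 := hT3.trans (h T hT1 hT2)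
  have h2 : (∑ i ∈ F, (1 : ℝ)) ^ 2 ≤ (∑ i ∈ F, (1 : ℝ) / (((F.filter (r i)).card : ℝ) + 1)) *
      ∑ i ∈ F, (((F.filter (r i)).card : ℝ) + 1) := by
    apply Finset.sum_sq_le_sum_mul_sum_of_sq_le_mul
    · intro i _
      positivity
    · intro i _
      positivity
    · intro i _
      apply le_of_eq
      field_simp
  have h3 : ∑ i ∈ F, (((F.filter (r i)).card : ℝ) + 1) =
      F.card + (((F ×ˢ F).filter fun w => r w.1 w.2).card : ℝ) := by
    rw [Finset.sum_add_distrib, Finset.sum_const, nsmul_eq_mul, mul_one, add_comm]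
    congr 1
    rw [Finset.card_filter, Finset.sum_product]
    push_cast
    refine Finset.sum_congr rfl fun i _ => ?_
    rw [Finset.card_filter]
    push_cast
    rfl
  rw [Finset.sum_const, nsmul_eq_mul, mul_one, h3] at h2
  exact h2.trans (mul_le_mul_of_nonneg_right h1 (by positivity))

/-- the sum over the classes -/
theorem classes {Cl : Type} [CommGroup Cl] [Finite Cl] (I : Finset ℕ) (g : ℕ → Cl) (k : ℕ)
    (E : Finset (ℕ × ℕ)) (R : ℝ) (hR : 0 ≤ R) (hs : ∀ p q, (p, q) ∈ E → (q, p) ∈ E)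
    (hirr : ∀ p, (p, p) ∉ E) (hg : ∀ c : Cl, ∀ T ⊆ I, (∀ p ∈ T, g p ^ k = c) →
      (∀ p ∈ T, ∀ q ∈ T, (p, q) ∉ E) → (T.card : ℝ) ≤ R) :
    (I.card : ℝ) ^ 2 * (Nat.card {a : Cl // a ^ k = 1} : ℝ) ≤
      Nat.card Cl * R * (I.card + E.card) := by
  classical
  cases nonempty_fintype Cl
  obtain ⟨t, ht⟩ : ∃ t : ℕ, t = Nat.card {a : Cl // a ^ k = 1} := ⟨_, rfl⟩
  rw [← ht]
  have htpos : 0 < t := by
    rw [ht]
    have : Nonempty {a : Cl // a ^ k = 1} := ⟨⟨1, one_pow k⟩⟩
    exact Nat.card_pos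
  -- the number of the k-th roots
  have hroot : ∀ a : Cl, ((univ : Finset Cl).filter fun C => a ^ k = C ^ k).card = t := by
    intro a
    rw [ht, Nat.card_eq_fintype_card, Fintype.card_subtype]
    symm
    apply Finset.card_bij (fun b _ => b * a)
    · intro b hb
      rw [Finset.mem_filter] at hb ⊢
      refine ⟨Finset.mem_univ _, ?_⟩
      rw [mul_pow, hb.2, one_mul]
    · intro b _ b' _ hbb
      exact mul_right_cancel hbb
    · intro C hC
      rw [Finset.mem_filter] at hC
      refine ⟨C * a⁻¹, ?_, by simp⟩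
      rw [Finset.mem_filter]
      refine ⟨Finset.mem_univ _, ?_⟩
      rw [mul_pow, ← hC.2, ← mul_pow, mul_inv_cancel, one_pow]
  let F : Cl → Finset ℕ := fun C => I.filter fun p => g p ^ k = C ^ k
  let G : Cl → Finset (ℕ × ℕ) := fun C => E.filter fun w => g w.1 ^ k = C ^ k
  have hsum : ∑ C : Cl, ((F C).card : ℝ) = I.card * t := by
    have h1 : ∑ C : Cl, (F C).card = ∑ p ∈ I, t := by
      simp only [F, Finset.card_filter]
      rw [Finset.sum_comm]
      refine Finset.sum_congr rfl fun p _ => ?_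
      rw [← Finset.card_filter]
      exact hroot (g p)
    rw [Finset.sum_const, smul_eq_mul] at h1
    exact_mod_cast h1
  have hsumE : ∑ C : Cl, ((G C).card : ℝ) = E.card * t := by
    have h1 : ∑ C : Cl, (G C).card = ∑ p ∈ E, t := by
      simp only [G, Finset.card_filter]
      rw [Finset.sum_comm]
      refine Finset.sum_congr rfl fun w _ => ?_
      rw [← Finset.card_filter]
      exact hroot (g w.1)
    rw [Finset.sum_const, smul_eq_mul] at h1
    exact_mod_cast h1
  have hone : ∀ C : Cl, ((F C).card : ℝ) ^ 2 ≤ R * ((F C).card + (G C).card) := by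
    intro C
    have h1 := turan (fun p q => (p, q) ∈ E) (fun p q => hs p q) hirr (F C) R (by
      intro T hT hT2
      refine hg (C ^ k) T (hT.trans (Finset.filter_subset _ _)) (fun p hp => ?_) hT2
      exact (Finset.mem_filter.1 (hT hp)).2)
    refine h1.trans (mul_le_mul_of_nonneg_left ?_ hR)
    have h2 : ((F C ×ˢ F C).filter fun w => (w.1, w.2) ∈ E) ⊆ G C := by
      intro w hw
      rw [Finset.mem_filter, Finset.mem_product] at hw
      rw [Finset.mem_filter]
      exact ⟨hw.2, (Finset.mem_filter.1 hw.1.1).2⟩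
    have h3 : ((((F C ×ˢ F C).filter fun w => (w.1, w.2) ∈ E).card : ℕ) : ℝ) ≤ (G C).card := by
      exact_mod_cast Finset.card_le_card h2
    linarith
  have hcs : (∑ C : Cl, ((F C).card : ℝ)) ^ 2 ≤
      (Fintype.card Cl : ℝ) * ∑ C : Cl, ((F C).card : ℝ) ^ 2 := by
    have := sq_sum_le_card_mul_sum_sq (s := (univ : Finset Cl)) (f := fun C => ((F C).card : ℝ))
    rwa [Finset.card_univ] at this
  have h1 : ∑ C : Cl, ((F C).card : ℝ) ^ 2 ≤ R * (I.card * t + E.card * t) := by
    refine (Finset.sum_le_sum fun C _ => hone C).trans ?_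
    rw [← Finset.mul_sum, Finset.sum_add_distrib, hsum, hsumE]
  rw [hsum] at hcs
  have h2 : ((I.card : ℝ) * t) ^ 2 ≤ (Fintype.card Cl : ℝ) * (R * (I.card * t + E.card * t)) :=
    hcs.trans (mul_le_mul_of_nonneg_left h1 (Nat.cast_nonneg _))
  rw [Nat.card_eq_fintype_card]
  have ht0 : (0 : ℝ) < t := by exact_mod_cast htpos
  have h3 : ((I.card : ℝ) ^ 2 * t) * t ≤ (Fintype.card Cl * R * (I.card + E.card)) * t := by
    nlinarith
  exact le_of_mul_le_mul_right h3 ht0


open NumberField Module Q263.CN Pool.Agent.H14.AD Pool.Agent.H45.RQ Pool.Agent.H45.AD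

section

variable {K : Type} [Field K] [NumberField K]

theorem pack1 {d : ℕ} (hd : 1 < d) (hs : Squarefree d) (h2 : finrank ℚ K = 2) (x : K)
    (hx : x ^ 2 = (d : K)) (σ : K →+* ℝ) (hσ : σ x = √(d : ℝ))
    {ι : Type} (T : Finset ι) (v : ι → ℕ → ℕ) (S : Finset ℕ) (P Q : ℕ → Ideal (𝓞 K))
    (h : ∀ p ∈ S, Pair (P p) (Q p) p)
    (hinj : ∀ i ∈ T, ∀ j ∈ T, i ≠ j → ∃ p ∈ S, v i p ≠ v j p)
    (hcl : ∀ i ∈ T, ∀ j ∈ T, ((∏ p ∈ S, P p ^ v i p) * ∏ p ∈ S, Q p ^ v j p).IsPrincipal)
    (hyp : ∀ i ∈ T, ∀ j ∈ T, ∀ X Y : ℤ, 0 ≤ X → 1 ≤ Y →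
      (X ^ 2 - d * Y ^ 2 = 4 * (NN S (v i) (v j) : ℤ) ∨
        X ^ 2 - d * Y ^ 2 = -4 * (NN S (v i) (v j) : ℤ)) →
      2 * Real.exp ((Real.log (NN S (v i) (v j)) + 1) / 2) < X + Y * √(d : ℝ)) :
    (T.card : ℝ) ≤ 2 * Units.regulator K := by
  classical
  rw [← mul_one (T.card : ℝ)]
  have hreg0 : 0 < Units.regulator K := Units.regulator_pos K
  rcases T.eq_empty_or_nonempty with hT | ⟨i0, hi0⟩
  · subst hT
    simp only [Finset.card_empty, Nat.cast_zero, zero_mul]
    linarith
  -- the fundamental unit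
  have hd1 : (d : ℤ) ≠ 1 := by omega
  have hsf : Squarefree (d : ℤ) := Int.squarefree_natCast.2 hs
  have hsig := Pool.Agent.H140.LD.signature_real h2 hd1 hsf x hx
  have hcard : Fintype.card (InfinitePlace K) = 2 := by
    rw [InfinitePlace.card_eq_nrRealPlaces_add_nrComplexPlaces, hsig.1, hsig.2]
  have hrank : Units.rank K = 1 := by rw [Units.rank, hcard]
  obtain ⟨ε, hε, hgen⟩ := Pool.Agent.Q210.PL.REG.exists_fund σ hrank
  have hreg := Pool.Agent.H140.LD.regulator_real h2 hd1 hsf x hx σ ε hε hgen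
  have hlε : Real.log |σ ((ε : 𝓞 K) : K)| = Units.regulator K := by
    rw [hreg, abs_of_pos (by linarith)]
  -- generators
  have hgenr : ∀ i, ∃ b : 𝓞 K, i ∈ T → b ≠ 0 ∧
      (∏ p ∈ S, P p ^ v i p) * (∏ p ∈ S, Q p ^ v i0 p) = Ideal.span {b} := by
    intro i
    by_cases hi : i ∈ T
    · obtain ⟨b, hb⟩ := (hcl i hi i0 hi0).principal
      refine ⟨b, fun _ => ⟨?_, hb⟩⟩
      rintro rfl
      have h3 : (∏ p ∈ S, P p ^ v i p) * (∏ p ∈ S, Q p ^ v i0 p) ≠ ⊥ := by
        apply mul_ne_zero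
        · exact Finset.prod_ne_zero_iff.2 fun p hp => pow_ne_zero _ (h p hp).P0
        · exact Finset.prod_ne_zero_iff.2 fun p hp => pow_ne_zero _ (h p hp).symm.P0
      apply h3
      rw [hb]
      simp
    · exact ⟨0, fun h3 => absurd h3 hi⟩
  choose b hb using hgenr
  refine circle T (fun i => lam σ (b i)) _ 1 (by linarith) one_pos ?_
  intro i hi j hj m hne
  have hα : ∃ α : 𝓞 K, (∀ n : ℤ, α ≠ n) ∧
      |((Algebra.norm ℤ α : ℤ) : ℝ)| = (NN S (v i) (v j) : ℝ) ∧
      lam σ α = lam σ (b i) - lam σ (b j) + 2 * Units.regulator K * m := by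
    by_cases hij : i = j
    · subst hij
      have hm : m ≠ 0 := by
        rcases hne with h3 | h3
        · exact absurd rfl h3
        · exact h3
      have h3 := lam_zpow σ ε m
      rw [hlε] at h3
      refine ⟨((ε ^ m : (𝓞 K)ˣ) : 𝓞 K), fun n hn => ?_, ?_, ?_⟩
      · rw [hn, lam_int σ h2] at h3
        have hm' : (m : ℝ) ≠ 0 := by exact_mod_cast hm
        have : 2 * ((m : ℝ) * Units.regulator K) ≠ 0 :=
          mul_ne_zero two_ne_zero (mul_ne_zero hm' hreg0.ne')
        exact this h3.symm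
      · rw [norm_unit, NN_self, Nat.cast_one]
      · rw [h3]
        ring
    · obtain ⟨hbi0, hbi⟩ := hb i hi
      obtain ⟨hbj0, hbj⟩ := hb j hj
      obtain ⟨a, ha1, ha2⟩ := JJ_gen h (v i) (v j) _ (b i) (b j) hbj0 hbi hbj
      obtain ⟨p, hp, hvp⟩ := hinj i hi j hj hij
      have hM0 : (∏ p ∈ S, p ^ (v j p - v i p) : ℕ) ≠ 0 :=
        Finset.prod_ne_zero_iff.2 fun p hp => pow_ne_zero _ (h p hp).pp.ne_zero
      have hM0' : ((∏ p ∈ S, p ^ (v j p - v i p) : ℕ) : 𝓞 K) ≠ 0 := by
        exact_mod_cast hM0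
      have ha0 : a ≠ 0 := by
        rintro rfl
        rw [mul_zero] at ha1
        exact mul_ne_zero hbi0 hM0' ha1.symm
      have hu0 : ((ε ^ m : (𝓞 K)ˣ) : 𝓞 K) ≠ 0 := (ε ^ m).ne_zero
      have hlam : lam σ a = lam σ (b i) - lam σ (b j) := by
        have h3 := congrArg (lam σ) ha1
        rw [lam_mul σ hbj0 ha0, lam_mul σ hbi0 hM0'] at h3
        have h4 : lam σ (((∏ p ∈ S, p ^ (v j p - v i p) : ℕ) : 𝓞 K)) = 0 := by
          have := lam_int σ h2 ((∏ p ∈ S, p ^ (v j p - v i p) : ℕ) : ℤ)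
          rwa [Int.cast_natCast] at this
        linarith
      refine ⟨a * ((ε ^ m : (𝓞 K)ˣ) : 𝓞 K), fun n hn => ?_, ?_, ?_⟩
      · refine JJ_irr h (v i) (v j) hp hvp n ?_
        rw [← ha2, ← hn]
        exact (Ideal.span_singleton_mul_right_unit (ε ^ m).isUnit a).symm
      · rw [map_mul, Int.cast_mul, abs_mul, norm_unit, mul_one]
        have h3 := JJ_norm h (v i) (v j)
        rw [← ha2, Ideal.absNorm_span_singleton] at h3
        unfold NN
        rw [← h3, Nat.cast_natAbs, Int.cast_abs]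
      · rw [lam_mul σ ha0 hu0, hlam, lam_zpow, hlε]
        ring
  obtain ⟨α, hα1, hα2, hα3⟩ := hα
  obtain ⟨X, Y, hX, hY, hXY, hval⟩ := size hd hs h2 x hx σ hσ α hα1
  have h3 : X ^ 2 - d * Y ^ 2 = 4 * (NN S (v i) (v j) : ℤ) ∨
      X ^ 2 - d * Y ^ 2 = -4 * (NN S (v i) (v j) : ℤ) := by
    have h4 : |Algebra.norm ℤ α| = (NN S (v i) (v j) : ℤ) := by
      have : ((|Algebra.norm ℤ α| : ℤ) : ℝ) = (((NN S (v i) (v j) : ℕ) : ℤ) : ℝ) := by
        rw [Int.cast_abs, hα2]
        push_cast
        rfl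
      exact_mod_cast this
    rcases abs_choice (Algebra.norm ℤ α) with h5 | h5
    · left
      rw [hXY, ← h4, h5]
    · right
      rw [hXY, ← h4, h5]
      ring
  have h4 := hyp i hi j hj X Y hX hY h3
  rw [hval, hα2] at h4
  have h5 : (Real.log (NN S (v i) (v j)) + 1) / 2 <
      (Real.log (NN S (v i) (v j)) + |lam σ α|) / 2 := by
    rw [← Real.exp_lt_exp]
    linarith
  rw [← hα3]
  linarith

end

theorem t : StmtPG := by
  classical
  intro d Y k hd16 hs hk hY
  have hd : 1 < d := by omega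
  have h2 := finrank_QS hd hs
  obtain ⟨x, hxv⟩ : ∃ x : QS d, x = ⟨√(d : ℝ), IntermediateField.mem_adjoin_simple_self ℚ _⟩ :=
    ⟨_, rfl⟩
  have hx : x ^ 2 = (d : QS d) := by
    rw [hxv]
    apply Subtype.ext
    simp [Real.sq_sqrt (Nat.cast_nonneg d)]
  obtain ⟨σ, hσdef⟩ : ∃ σ : QS d →+* ℝ, σ = algebraMap (QS d) ℝ := ⟨_, rfl⟩
  have hσ : σ x = √(d : ℝ) := by
    rw [hσdef, hxv]
    rfl
  obtain ⟨P, Q, hPQ⟩ := exists_PQ hd hs h2 x hx Y
  obtain ⟨I, hI⟩ : ∃ I, I = spl d Y := ⟨_, rfl⟩
  rw [← hI] at hPQ ⊢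
  have hIp : ∀ p ∈ I, p.Prime := by rw [hI]; exact spl_prime
  have hIY : ∀ p ∈ I, p ≤ Y := by rw [hI]; exact spl_le
  have hreg0 : 0 < Units.regulator (QS d) := Units.regulator_pos (QS d)
  have hd4 : (4 : ℝ) ≤ √(d : ℝ) := by
    apply Real.le_sqrt_of_sq_le
    have : ((16 : ℕ) : ℝ) ≤ d := by exact_mod_cast hd16
    push_cast at this
    linarith
  have hexp : Real.exp (1 / 2) < 2 := by
    have h3 : Real.exp (1 / 2) * Real.exp (1 / 2) = Real.exp 1 := by
      rw [← Real.exp_add]
      norm_num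
    have h4 := Real.exp_one_lt_d9
    have h5 : 0 < Real.exp (1 / 2) := Real.exp_pos _
    nlinarith
  have hY1 : (1 : ℝ) ≤ Y := by exact_mod_cast hY
  -- the exponent vectors
  let v : ℕ → ℕ → ℕ := fun p q => if q = p then k else 0
  have hcl : ∀ i ∈ I, ∏ p ∈ I, (ClassGroup.mk0 (P p)) ^ v i p = (ClassGroup.mk0 (P i)) ^ k := by
    intro i hi
    rw [Finset.prod_eq_single i]
    · simp [v]
    · intro q _ hq
      simp [v, hq]
    · intro h
      exact absurd hi h
  have hNN : ∀ i ∈ I, ∀ j ∈ I, i ≠ j → NN I (v i) (v j) = (i * j) ^ k := by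
    intro i hi j hj hij
    unfold NN
    have h3 : ∀ p ∈ I, p ^ ((v i p - v j p) + (v j p - v i p)) =
        (if p = i then i ^ k else 1) * (if p = j then j ^ k else 1) := by
      intro p hp
      simp only [v]
      by_cases hpi : p = i
      · subst hpi
        simp [hij]
      · by_cases hpj : p = j
        · subst hpj
          simp [hpi]
        · simp [hpi, hpj]
    rw [Finset.prod_congr rfl h3, Finset.prod_mul_distrib, Finset.prod_ite_eq' I i,
      Finset.prod_ite_eq' I j, if_pos hi, if_pos hj, mul_pow]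
  have hmain := classes I (fun p => ClassGroup.mk0 (P p)) k (bad d Y k)
    (2 * Units.regulator (QS d)) (by positivity) ?_ ?_ ?_
  · have h5 : Nat.card (ClassGroup (𝓞 (QS d))) = hnum d := rfl
    rw [h5] at hmain
    unfold Tk
    refine hmain.trans (le_of_eq ?_)
    ring
  · -- symmetry
    intro p q hpq
    unfold bad at hpq ⊢
    rw [Finset.mem_filter, Finset.mem_product] at hpq ⊢
    obtain ⟨⟨h3, h4⟩, h5, a, b, h6, h7, h8, h9⟩ := hpq
    refine ⟨⟨h4, h3⟩, Ne.symm h5, a, b, h6, h7, ?_, h9⟩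
    simp only at h8 ⊢
    rw [mul_comm q p]
    exact h8
  · intro p hp
    unfold bad at hp
    rw [Finset.mem_filter] at hp
    exact hp.2.1 rfl
  · intro c T hT hTc hTE
    refine pack1 hd hs h2 x hx σ hσ T v I (fun p => (P p : Ideal (𝓞 (QS d))))
      (fun p => (Q p : Ideal (𝓞 (QS d)))) hPQ ?_ ?_ ?_
    · intro i hi j _ hij
      refine ⟨i, hT hi, ?_⟩
      simp only [v, if_true, if_neg hij]
      omega
    · intro i hi j hj
      apply prin P Q hPQ
      rw [hcl i (hT hi), hcl j (hT hj), hTc i hi, hTc j hj]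
    · intro i hi j hj X Z hX hZ hXZ
      have hX' : (0 : ℝ) ≤ X := by exact_mod_cast hX
      have hZ' : (1 : ℝ) ≤ Z := by exact_mod_cast hZ
      by_cases hij : i = j
      · subst hij
        rw [NN_self, Nat.cast_one, Real.log_one, zero_add]
        nlinarith
      · rw [hNN i (hT hi) j (hT hj) hij] at hXZ ⊢
        have h3 : 4 * (Y : ℝ) ^ k < X + Z * √(d : ℝ) := by
          by_contra hcon
          apply hTE i hi j hj
          unfold bad
          rw [Finset.mem_filter, Finset.mem_product, ← hI]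
          refine ⟨⟨hT hi, hT hj⟩, hij, X, Z, hX, hZ, ?_, not_lt.1 hcon⟩
          simp only
          rcases hXZ with h4 | h4
          · left
            rw [h4]
            push_cast
            ring
          · right
            rw [h4]
            push_cast
            ring
        have hi1 : (1 : ℝ) ≤ i := by exact_mod_cast (hIp i (hT hi)).one_lt.le
        have hj1 : (1 : ℝ) ≤ j := by exact_mod_cast (hIp j (hT hj)).one_lt.le
        have hiY : (i : ℝ) ≤ Y := by exact_mod_cast hIY i (hT hi)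
        have hjY : (j : ℝ) ≤ Y := by exact_mod_cast hIY j (hT hj)
        have h4 : Real.log (((i * j) ^ k : ℕ) : ℝ) ≤ 2 * (k * Real.log Y) := by
          push_cast
          rw [Real.log_pow, Real.log_mul (by linarith) (by linarith)]
          have h5 := Real.log_le_log (by linarith) hiY
          have h6 := Real.log_le_log (by linarith) hjY
          have h7 : (0 : ℝ) ≤ k := Nat.cast_nonneg k
          nlinarith
        have h5 : Real.exp ((Real.log (((i * j) ^ k : ℕ) : ℝ) + 1) / 2) ≤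
            (Y : ℝ) ^ k * Real.exp (1 / 2) := by
          have h6 : (Y : ℝ) ^ k = Real.exp (k * Real.log Y) := by
            rw [← Real.log_pow, Real.exp_log (by positivity)]
          rw [h6, ← Real.exp_add]
          apply Real.exp_le_exp.2
          linarith
        have h6 : 0 < (Y : ℝ) ^ k := by positivity
        nlinarith

end Pool.Agent.H26.AD.PG
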