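import Pool.Agent.H45.AD.Stm4

set_option autoImplicit false

/-! AD-S2: almost all `d` have many small split primes, strong form. -/

namespace Pool.Agent.H26.AD.S2

open Finset Filter Pool.Agent.H45.AD Pool.Agent.H45.AD.SPf

/-- Chebyshev -/
theorem cheb2 (δ : ℝ) (hδ : 0 < δ) (hδ1 : δ ≤ 1) :
    ∀ᶠ Y : ℕ in atTop, (Y : ℝ) ^ (1 - δ) ≤ ((PP Y).card : ℝ) := by
  have h0 := (isLittleO_log_rpow_atTop hδ).bound (show (0 : ℝ) < 1 / 8 by norm_num)
  have h0' := tendsto_natCast_atTop_atTop (R := ℝ) |>.eventually h0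
  filter_upwards [h0', eventually_ge_atTop 1000] with Y hY hY1000
  have hY1 : (1000 : ℝ) ≤ Y := by exact_mod_cast hY1000
  have hY0 : (0 : ℝ) < Y := by linarith
  have hlog0 : 0 ≤ Real.log (Y : ℝ) := Real.log_natCast_nonneg Y
  have hlog : Real.log (Y : ℝ) ≤ 1 / 8 * (Y : ℝ) ^ δ := by
    rw [Real.norm_of_nonneg hlog0, Real.norm_of_nonneg (by positivity)] at hY
    exact hY
  have h1 : (Nat.primeCounting Y : ℝ) ≤ (PP Y).card + 1 := by
    have h2 : Nat.primeCounting Y = ((range (Y + 1)).filter Nat.Prime).card := by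
      rw [Nat.primeCounting, Nat.primeCounting', Nat.count_eq_card_filter_range]
    have h3 : (range (Y + 1)).filter Nat.Prime ⊆ insert 2 (PP Y) := by
      intro p hp
      rw [mem_filter, mem_range] at hp
      by_cases h : p = 2
      · simp [h]
      · exact mem_insert_of_mem (mem_PP.2 ⟨by omega, hp.2, h⟩)
    have h4 := (card_le_card h3).trans (card_insert_le _ _)
    rw [h2]
    exact_mod_cast h4
  have h2 := Chebyshev.psi_ge Y
  have h3 := Chebyshev.psi_le_primeCounting_mul_log Y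
  have h5 : Real.log ((Y : ℝ) + 1) ≤ Real.log Y + 1 := by
    have h6 : Real.log ((Y : ℝ) + 1) ≤ Real.log ((Y : ℝ) * 2) :=
      Real.log_le_log (by positivity) (by linarith)
    rw [Real.log_mul (by positivity) (by norm_num)] at h6
    have := Real.log_two_lt_d9
    linarith
  have h7 : (1 / 2 : ℝ) < Real.log 2 := by
    have := Real.log_two_gt_d9
    linarith
  have hYd : (Y : ℝ) ^ δ ≤ Y := by
    calc (Y : ℝ) ^ δ ≤ (Y : ℝ) ^ (1 : ℝ) :=
          Real.rpow_le_rpow_of_exponent_le (by linarith) hδ1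
      _ = Y := Real.rpow_one _
  have hYd0 : 0 < (Y : ℝ) ^ δ := Real.rpow_pos_of_pos hY0 _
  have h8 : (Y : ℝ) / 4 ≤ ((PP Y).card + 1) * (1 / 8 * (Y : ℝ) ^ δ) := by
    have h9 : (Nat.primeCounting Y : ℝ) * Real.log Y ≤
        ((PP Y).card + 1) * (1 / 8 * (Y : ℝ) ^ δ) := by gcongr
    have h10 : (Y : ℝ) * (1 / 2) ≤ Y * Real.log 2 := by gcongr
    linarith
  have h9 : 2 * (Y : ℝ) ^ (1 - δ) ≤ (PP Y).card + 1 := by
    have h10 : (Y : ℝ) ^ (1 - δ) * (Y : ℝ) ^ δ = Y := by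
      rw [← Real.rpow_add hY0, sub_add_cancel, Real.rpow_one]
    have h11 : (2 * (Y : ℝ) ^ (1 - δ)) * (Y : ℝ) ^ δ ≤ ((PP Y).card + 1) * (Y : ℝ) ^ δ := by
      have : (2 * (Y : ℝ) ^ (1 - δ)) * (Y : ℝ) ^ δ = 2 * Y := by
        rw [mul_assoc, h10]
      rw [this]
      linarith
    exact le_of_mul_le_mul_right h11 hYd0
  have h10 : (1 : ℝ) ≤ (Y : ℝ) ^ (1 - δ) := Real.one_le_rpow (by linarith) (by linarith)
  linarith

theorem t : StmtS2 := by
  classical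
  intro ε hε
  by_cases hε1 : 1 ≤ ε
  · -- the trivial case
    refine ⟨1, fun Y N hY _ _ => ?_⟩
    have hY1 : (1 : ℝ) ≤ Y := by exact_mod_cast hY
    have h1 : {d : ℕ | N < d ∧ d ≤ 2 * N ∧ ((spl d Y).card : ℝ) < (Y : ℝ) ^ (1 - ε)} ⊆
        ((Finset.Ioc N (2 * N) : Finset ℕ) : Set ℕ) := by
      intro d hd
      rw [Finset.mem_coe, Finset.mem_Ioc]
      exact ⟨hd.1, hd.2.1⟩
    have h2 := Set.ncard_le_ncard h1 (Finset.finite_toSet _)
    rw [Set.ncard_coe_finset, Nat.card_Ioc] at h2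
    have h3 : (({d : ℕ | N < d ∧ d ≤ 2 * N ∧
        ((spl d Y).card : ℝ) < (Y : ℝ) ^ (1 - ε)}.ncard : ℕ) : ℝ) ≤ N := by
      have : 2 * N - N = N := by omega
      rw [this] at h2
      exact_mod_cast h2
    refine h3.trans ?_
    have h4 : (1 : ℝ) ≤ (Y : ℝ) ^ (-(1 - ε)) := Real.one_le_rpow hY1 (by linarith)
    exact le_mul_of_one_le_right (Nat.cast_nonneg N) h4
  · push Not at hε1
    obtain ⟨δ, hδ⟩ : ∃ δ : ℝ, δ = min (ε / 2) (1 / 4) := ⟨_, rfl⟩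
    have hδ0 : 0 < δ := by rw [hδ]; exact lt_min (by linarith) (by norm_num)
    have hδ1 : δ ≤ ε / 2 := by rw [hδ]; exact min_le_left _ _
    have hδ2 : δ ≤ 1 / 4 := by rw [hδ]; exact min_le_right _ _
    have hev1 := cheb2 δ hδ0 (by linarith)
    have hev2 : ∀ᶠ Y : ℕ in atTop, (32 : ℝ) ≤ (Y : ℝ) ^ (ε / 2) :=
      ((tendsto_rpow_atTop (show 0 < ε / 2 by linarith)).comp
        (tendsto_natCast_atTop_atTop (R := ℝ))).eventually (eventually_ge_atTop 32)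
    obtain ⟨Y₀, hY₀⟩ := eventually_atTop.1 ((hev1.and hev2).and (eventually_ge_atTop (24 ^ 4)))
    refine ⟨Y₀, fun Y N hYY hYN hlog => ?_⟩
    obtain ⟨⟨hpi, h32⟩, hYb⟩ := hY₀ Y hYY
    obtain ⟨π, hπ⟩ : ∃ π : ℝ, π = ((PP Y).card : ℝ) := ⟨_, rfl⟩
    rw [← hπ] at hpi
    have hYb' : (24 : ℝ) ^ 4 ≤ Y := by exact_mod_cast hYb
    have hY1 : (1 : ℝ) ≤ Y := by
      have : (1 : ℝ) ≤ 24 ^ 4 := by norm_num
      linarith
    have hY0 : (0 : ℝ) < Y := by linarith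
    have hN : (Y : ℝ) ^ 4 ≤ (N : ℝ) := by exact_mod_cast hYN
    have hN1 : (1 : ℝ) ≤ N := (one_le_pow₀ hY1).trans hN
    have hN0 : (0 : ℝ) < N := by linarith
    -- comparison of powers
    have hp1 : (Y : ℝ) ^ (3 / 4 : ℝ) ≤ (Y : ℝ) ^ (1 - δ) :=
      Real.rpow_le_rpow_of_exponent_le hY1 (by linarith)
    have hp2 : 32 * (Y : ℝ) ^ (1 - ε) ≤ (Y : ℝ) ^ (1 - δ) := by
      have h1 : (Y : ℝ) ^ (ε / 2) * (Y : ℝ) ^ (1 - ε) ≤ (Y : ℝ) ^ (1 - δ) := by
        rw [← Real.rpow_add hY0]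
        exact Real.rpow_le_rpow_of_exponent_le hY1 (by linarith)
      refine le_trans ?_ h1
      exact mul_le_mul_of_nonneg_right h32 (Real.rpow_nonneg hY0.le _)
    have hsq : √(Y : ℝ) * √(Y : ℝ) = Y := Real.mul_self_sqrt hY0.le
    have hs24 : (24 : ℝ) * √(Y : ℝ) ≤ (Y : ℝ) ^ (3 / 4 : ℝ) := by
      have h1 : (Y : ℝ) ^ (3 / 4 : ℝ) = (Y : ℝ) ^ (1 / 4 : ℝ) * √(Y : ℝ) := by
        rw [Real.sqrt_eq_rpow, ← Real.rpow_add hY0]
        norm_num
      rw [h1]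
      apply mul_le_mul_of_nonneg_right _ (Real.sqrt_nonneg _)
      have h2 : ((24 : ℝ) ^ 4) ^ (1 / 4 : ℝ) ≤ (Y : ℝ) ^ (1 / 4 : ℝ) :=
        Real.rpow_le_rpow (by positivity) hYb' (by norm_num)
      have h3 : ((24 : ℝ) ^ 4) ^ (1 / 4 : ℝ) = 24 := by
        rw [← Real.rpow_natCast, ← Real.rpow_mul (by norm_num)]
        norm_num
      linarith
    have hs1 : 1 ≤ √(Y : ℝ) := by
      rw [Real.one_le_sqrt]
      exact hY1
    have hπ0 : 0 < π := lt_of_lt_of_le (Real.rpow_pos_of_pos hY0 _) hpi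
    have hlogN : Real.log N ≤ √(Y : ℝ) := by
      apply Real.le_sqrt_of_sq_le
      exact hlog
    obtain ⟨B, hB⟩ : ∃ B : Finset ℕ,
      B = (range N).filter fun j => ((spl (N + 1 + j) Y).card : ℝ) < (Y : ℝ) ^ (1 - ε) := ⟨_, rfl⟩
    have hcard : {d : ℕ | N < d ∧ d ≤ 2 * N ∧
        ((spl d Y).card : ℝ) < (Y : ℝ) ^ (1 - ε)}.ncard ≤ B.card := by
      have h1 : {d : ℕ | N < d ∧ d ≤ 2 * N ∧ ((spl d Y).card : ℝ) < (Y : ℝ) ^ (1 - ε)} ⊆
          ((B.image fun j => N + 1 + j : Finset ℕ) : Set ℕ) := by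
        intro d hd
        obtain ⟨h1, h2, h3⟩ := hd
        rw [Finset.mem_coe, mem_image]
        refine ⟨d - (N + 1), ?_, by omega⟩
        rw [hB, mem_filter, mem_range]
        have h4 : N + 1 + (d - (N + 1)) = d := by omega
        rw [h4]
        exact ⟨by omega, h3⟩
      calc _ ≤ ((B.image fun j => N + 1 + j : Finset ℕ) : Set ℕ).ncard :=
            Set.ncard_le_ncard h1 (Finset.finite_toSet _)
        _ = (B.image fun j => N + 1 + j).card := Set.ncard_coe_finset _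
        _ ≤ B.card := card_image_le
    have hcard' : (({d : ℕ | N < d ∧ d ≤ 2 * N ∧
        ((spl d Y).card : ℝ) < (Y : ℝ) ^ (1 - ε)}.ncard : ℕ) : ℝ) ≤ B.card := by
      exact_mod_cast hcard
    refine hcard'.trans ?_
    have hbad : ∀ j ∈ B, (π / 2) ^ 2 ≤
        (∑ p ∈ PP Y, ((jacobiSym ((N + 1 + j : ℕ) : ℤ) p : ℤ) : ℝ)) ^ 2 := by
      intro j hj
      rw [hB, mem_filter, mem_range] at hj
      have h1 := sum_le Y (N + 1 + j) (by omega)
      rw [← hπ] at h1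
      have h2 := two_pow_omega (N + 1 + j) (by omega)
      have h3 : ((N + 1 + j).primeFactors.card : ℝ) ≤ 3 * √(Y : ℝ) := by
        have h4 : ((2 : ℝ) ^ (N + 1 + j).primeFactors.card) ≤ 2 * N := by
          have h5 : 2 ^ (N + 1 + j).primeFactors.card ≤ 2 * N := h2.trans (by omega)
          exact_mod_cast h5
        have h5 := Real.log_le_log (by positivity) h4
        rw [Real.log_pow, Real.log_mul (by norm_num) (by positivity)] at h5
        have h6 := Real.log_two_gt_d9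
        have h7 := Real.log_two_lt_d9
        have h9 : ((N + 1 + j).primeFactors.card : ℝ) * (0.69 : ℝ) ≤
            ((N + 1 + j).primeFactors.card : ℝ) * Real.log 2 := by
          gcongr
          linarith
        linarith
      have h6 : π / 2 ≤ -(∑ p ∈ PP Y, ((jacobiSym ((N + 1 + j : ℕ) : ℤ) p : ℤ) : ℝ)) := by
        have h7 := hj.2
        have h8 : 0 < (Y : ℝ) ^ (1 - ε) := Real.rpow_pos_of_pos hY0 _
        linarith
      calc (π / 2) ^ 2 ≤ (-(∑ p ∈ PP Y, ((jacobiSym ((N + 1 + j : ℕ) : ℤ) p : ℤ) : ℝ))) ^ 2 := by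
            gcongr
        _ = _ := by ring
    have hsum : (B.card : ℝ) * (π / 2) ^ 2 ≤ π * N + π ^ 2 * (Y : ℝ) ^ 2 := by
      calc (B.card : ℝ) * (π / 2) ^ 2 = ∑ j ∈ B, (π / 2) ^ 2 := by
            rw [sum_const, nsmul_eq_mul]
        _ ≤ ∑ j ∈ B, (∑ p ∈ PP Y, ((jacobiSym ((N + 1 + j : ℕ) : ℤ) p : ℤ) : ℝ)) ^ 2 :=
            sum_le_sum hbad
        _ ≤ ∑ j ∈ range N, (∑ p ∈ PP Y, ((jacobiSym ((N + 1 + j : ℕ) : ℤ) p : ℤ) : ℝ)) ^ 2 :=
            sum_le_sum_of_subset_of_nonneg (by rw [hB]; exact filter_subset _ _)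
              (fun _ _ _ => sq_nonneg _)
        _ ≤ _ := by rw [hπ]; exact second Y N
    -- conclusion
    have h1 : (B.card : ℝ) ≤ 4 * (N / π + (Y : ℝ) ^ 2) := by
      have h2 : (B.card : ℝ) * π ^ 2 ≤ 4 * (N / π + (Y : ℝ) ^ 2) * π ^ 2 := by
        have h3 : 4 * (N / π + (Y : ℝ) ^ 2) * π ^ 2 = 4 * (π * N + π ^ 2 * (Y : ℝ) ^ 2) := by
          field_simp
        rw [h3]
        nlinarith [hsum]
      exact le_of_mul_le_mul_right h2 (by positivity)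
    obtain ⟨V, hV⟩ : ∃ V : ℝ, V = (Y : ℝ) ^ (1 - δ) := ⟨_, rfl⟩
    rw [← hV] at hpi hp2
    have hV0 : 0 < V := by rw [hV]; exact Real.rpow_pos_of_pos hY0 _
    have hVY : V ≤ Y := by
      rw [hV]
      calc (Y : ℝ) ^ (1 - δ) ≤ (Y : ℝ) ^ (1 : ℝ) :=
            Real.rpow_le_rpow_of_exponent_le hY1 (by linarith)
        _ = Y := Real.rpow_one _
    have h2 : (N : ℝ) / π ≤ N / V := by gcongr
    have h3 : (Y : ℝ) ^ 2 ≤ N / V := by
      rw [le_div_iff₀ hV0]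
      calc (Y : ℝ) ^ 2 * V ≤ (Y : ℝ) ^ 2 * Y := by gcongr
        _ = (Y : ℝ) ^ 3 := by ring
        _ ≤ (Y : ℝ) ^ 4 := pow_le_pow_right₀ hY1 (by norm_num)
        _ ≤ N := hN
    have hW0 : 0 < (Y : ℝ) ^ (1 - ε) := Real.rpow_pos_of_pos hY0 _
    calc (B.card : ℝ) ≤ 4 * (N / V + N / V) := by linarith
      _ = N * (8 / V) := by ring
      _ ≤ N * (Y : ℝ) ^ (-(1 - ε)) := by
          apply mul_le_mul_of_nonneg_left _ hN0.le
          rw [Real.rpow_neg hY0.le, div_le_iff₀ hV0, inv_mul_eq_div, le_div_iff₀ hW0]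
          linarith

end Pool.Agent.H26.AD.S2
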